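import Pool.Agent.R490.Bc

set_option autoImplicit false

/-!
# Primes `n` with almost prime `a n + 1`: counts and the law of the next ones, uniformly in the `a`
-/

namespace Pool.Agent.Results.MP_bca3e5_nt.LawAfterPrimes

open Finset Filter

/-- The set `T` of positive integers is admissible in the sense of the problem. -/
def Admissible (T : Finset ℕ) : Prop := ∀ p : ℕ, p.Prime → ¬ ∀ n : ℕ, 1 ≤ n → p ∣ n * ∏ a ∈ T, (a * n + 1)

/-- Neither `n` nor any `a n + 1`, `a ∈ T`, has a prime factor `≤ y`. -/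
def Rough (T : Finset ℕ) (y n : ℕ) : Prop := ∀ p : ℕ, p.Prime → p ≤ y → ¬ p ∣ n ∧ ∀ a ∈ T, ¬ p ∣ a * n + 1

/-- The number of the residue classes `n` modulo `p` with `p ∣ n ∏ (a n + 1)`. -/
def w (T : Finset ℕ) (p : ℕ) : ℕ := ((Finset.range p).filter (fun n => p ∣ n * ∏ a ∈ T, (a * n + 1))).card

/-- The density of the `n` with `Rough T y n`. -/
noncomputable def V (T : Finset ℕ) (y : ℕ) : ℝ :=
  ∏ p ∈ (Finset.range (y + 1)).filter Nat.Prime, (1 - (w T p : ℝ) / p)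

/-- The density relative to the primes `n`. -/
noncomputable def W (T : Finset ℕ) (y : ℕ) : ℝ :=
  ∏ p ∈ (Finset.range (y + 1)).filter Nat.Prime, (1 - (w T p : ℝ) / p) / (1 - 1 / (p : ℝ))

open Classical in
/-- The PRIMES `n` in `(u, u + Y]` (larger than `y`) such that no `a n + 1` has a prime factor `≤ y`. -/
noncomputable def P (T : Finset ℕ) (y u Y : ℕ) : Finset ℕ :=
  (Ioc u (u + Y)).filter (fun n => n.Prime ∧ Rough T y n)

open Classical in
/-- The number of the `m` in `(n, n + B]` with `Rough T y m`. -/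
noncomputable def Next (T : Finset ℕ) (y B n : ℕ) : ℕ := ((Ioc n (n + B)).filter (fun m => Rough T y m)).card

open Classical in
/-- **The law after primes, uniformly.** Let `s ≥ 1`, `A`, `0 < θ`, `0 < δ ≤ 1`, `x0` and `0 < ε ≤ 1`. There is `r0`
such that for every `r ≥ r0` and all large `N`, with `y = N ^ (1 / r)`: for ALL admissible sets `T` of `s` positive
integers up to `N ^ A` and all windows `(u, u + Y]` with `u + Y ≤ X`, `δ X ≤ Y`, `X ≥ N ^ θ`: the primes `n` in the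
window for which no `a n + 1`, `a ∈ T`, has a prime factor `≤ y` number `Y W / log X`, up to the factor `1 + ε`,
and for exactly the expected proportions of them, `e ^ (- B V) (B V) ^ j / j!`, there are `j` integers `m` in
`(n, n + B]` with `Rough T y m`, as for a Poisson process, `B V ≤ x0`. -/
theorem result (s A : ℕ) (hs : 1 ≤ s) (θ δ : ℝ) (hθ : 0 < θ) (hδ : 0 < δ) (hδ1 : δ ≤ 1)
    (x0 ε : ℝ) (hε : 0 < ε) (hε1 : ε ≤ 1) :
    ∃ r0 : ℕ, 2 ≤ r0 ∧ ∀ r : ℕ, r0 ≤ r → ∀ᶠ N : ℕ in atTop, ∀ y : ℕ, y = ⌊(N : ℝ) ^ (1 / (r : ℝ))⌋₊ →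
      ∀ T : Finset ℕ, T.card = s → (∀ a ∈ T, 1 ≤ a ∧ a ≤ N ^ A) → Admissible T →
      0 < W T y ∧ ∀ X : ℕ, (N : ℝ) ^ θ ≤ X → ∀ u Y : ℕ, δ * X ≤ Y → u + Y ≤ X →
      |((P T y u Y).card : ℝ) * Real.log X - Y * W T y| ≤ ε * (Y * W T y) ∧
      ∀ B : ℕ, B * V T y ≤ x0 → ∀ J : Finset ℕ,
      |(((P T y u Y).filter (fun n => Next T y B n ∈ J)).card : ℝ) - (P T y u Y).card *
          ∑ j ∈ J, Real.exp (-(B * V T y)) * (B * V T y) ^ j / j.factorial| ≤
        ε * (P T y u Y).card :=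
  Pool.Agent.R490.Bc.bprime s A hs θ δ hθ hδ hδ1 x0 ε hε hε1

end Pool.Agent.Results.MP_bca3e5_nt.LawAfterPrimes
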