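import Pool.Agent.R490.Bc

set_option autoImplicit false

/-!
# Narrow progressions in arbitrary sets of `n` with `n` and all `a n + 1` prime or rough
-/

namespace Pool.Agent.Results.MP_bca3e5_nt.NarrowProgressions

open Finset Filter

/-- The set `T` of positive integers is admissible in the sense of the problem. -/
def Admissible (T : Finset ℕ) : Prop := ∀ p : ℕ, p.Prime → ¬ ∀ n : ℕ, 1 ≤ n → p ∣ n * ∏ a ∈ T, (a * n + 1)

/-- The `n` such that all prime factors of `n` and of all `a n + 1`, `a ∈ T`, exceed `n ^ (1 / r)`. For `r ≥ 2`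
this set contains all `n` for which these numbers are primes. -/
def RoughArguments (T : Finset ℕ) (r : ℕ) : Set ℕ :=
  {n | ∀ p : ℕ, p.Prime → (p ∣ n ∨ ∃ a ∈ T, p ∣ a * n + 1) → (n : ℝ) ^ (1 / (r : ℝ)) < (p : ℝ)}

/-- `m` is a term of an `l`-term arithmetic progression with difference at most `D`, all terms of which
are elements of `A` in `(X, Z]`. -/
def InProgression (A : Set ℕ) (l : ℕ) (D : ℝ) (X Z m : ℕ) : Prop :=
  ∃ s d : ℕ, 1 ≤ d ∧ (d : ℝ) ≤ D ∧ (∀ i < l, s + i * d ∈ A ∧ X < s + i * d ∧ s + i * d ≤ Z) ∧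
    ∃ i < l, m = s + i * d

open Classical in
/-- **Narrow progressions in arbitrary sets.** Let `T` be ANY admissible set of positive integers, `θ, ε > 0` and
`r, l ≥ 2`. There is an exponent `B` such that for all large `X`, all `X ^ θ ≤ Y ≤ X` and EVERY set `S` of
integers `n` such that all prime factors of `n` and of all `a n + 1` exceed `n ^ (1 / r)`, for instance every set
of `n` for which these numbers are primes: all but at most `ε Y / (log X) ^ (|T| + 1)` of the elements of `S` in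
`(X, X + Y]` are terms of `l`-term arithmetic progressions with difference at most `(log X) ^ B` all terms of
which are in `S` and in `(X, X + Y]`. -/
theorem result (T : Finset ℕ) (hT1 : ∀ a ∈ T, 1 ≤ a) (hT : Admissible T) (θ : ℝ) (hθ : 0 < θ)
    (r : ℕ) (hr : 2 ≤ r) (l : ℕ) (hl : 2 ≤ l) (ε : ℝ) (hε : 0 < ε) :
    ∃ B : ℕ, ∀ᶠ X : ℕ in atTop, ∀ Y : ℕ, (X : ℝ) ^ θ ≤ Y → Y ≤ X →
      ∀ S : Set ℕ, S ⊆ RoughArguments T r →
        (((Ioc X (X + Y)).filter (fun m : ℕ =>
          m ∈ S ∧ ¬ InProgression S l (Real.log X ^ B) X (X + Y) m)).card : ℝ) ≤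
        ε * (Y / Real.log X ^ (T.card + 1)) := by
  obtain ⟨B, hB⟩ := Pool.Agent.R490.Bc.bnar T hT1 hT θ hθ r hr l hl ε hε
  refine ⟨B, ?_⟩
  filter_upwards [hB] with X hX Y hXY hYX S hS
  exact hX Y hXY hYX S (fun m hm => hS hm)

end Pool.Agent.Results.MP_bca3e5_nt.NarrowProgressions
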