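import Pool.Agent.R490.Bc

set_option autoImplicit false

/-!
# Regular points of arbitrary sets of `n` with `n` and all `a n + 1` prime or rough, uniformly in the `a`
-/

namespace Pool.Agent.Results.MP_bca3e5_nt.RegularPoints

open Finset Filter

/-- The set `T` of positive integers is admissible in the sense of the problem. -/
def Admissible (T : Finset ℕ) : Prop := ∀ p : ℕ, p.Prime → ¬ ∀ n : ℕ, 1 ≤ n → p ∣ n * ∏ a ∈ T, (a * n + 1)

/-- Neither `n` nor any `a n + 1`, `a ∈ T`, has a prime factor `≤ y`. -/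
def Rough (T : Finset ℕ) (y n : ℕ) : Prop := ∀ p : ℕ, p.Prime → p ≤ y → ¬ p ∣ n ∧ ∀ a ∈ T, ¬ p ∣ a * n + 1

/-- The number of the residue classes `n` modulo `p` with `p ∣ n ∏ (a n + 1)`. -/
def w (T : Finset ℕ) (p : ℕ) : ℕ := ((Finset.range p).filter (fun n => p ∣ n * ∏ a ∈ T, (a * n + 1))).card

/-- The density of the `n` with `Rough T y n`. -/
noncomputable def V (T : Finset ℕ) (y : ℕ) : ℝ :=
  ∏ p ∈ (Finset.range (y + 1)).filter Nat.Prime, (1 - (w T p : ℝ) / p)

open Classical in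
/-- The number of elements of `S` in `(a, b]`. -/
noncomputable def count (S : Set ℕ) (a b : ℕ) : ℕ := ((Finset.Ioc a b).filter (fun m => m ∈ S)).card

/-- All intervals `(m - s, m + t]` with `s, t ≤ Y` of length at least `L / κ` contain between
`κ (s + t) / L` and `(s + t) / (κ L)` elements of `S`. -/
def RightOrder (S : Set ℕ) (L κ : ℝ) (Y m : ℕ) : Prop :=
  ∀ s t : ℕ, s ≤ Y → t ≤ Y → L ≤ κ * (s + t) →
    κ * (s + t) / L ≤ count S (m - s) (m + t) ∧ (count S (m - s) (m + t) : ℝ) ≤ (s + t) / (κ * L)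

/-- Up to `δ`, `S` has a constant density on both sides of `m` up to the distance `2 ^ j`. -/
def ConstantDensity (S : Set ℕ) (L κ δ : ℝ) (m j : ℕ) : Prop :=
  ∃ lam : ℝ, κ ≤ lam ∧ lam ≤ 1 / κ ∧ ∀ s t : ℕ, s ≤ 2 ^ j → t ≤ 2 ^ j →
    |(count S (m - s) (m + t) : ℝ) - lam * (s + t) / L| ≤ δ * 2 ^ j / L

open Classical in
/-- The number of the scales `L ≤ 2 ^ j ≤ Y` without this property. -/
noncomputable def badScales (S : Set ℕ) (L κ δ : ℝ) (Y m : ℕ) : ℕ :=
  ((Finset.range (Nat.log 2 Y + 1)).filter (fun j => L ≤ (2 : ℝ) ^ j ∧ ¬ ConstantDensity S L κ δ m j)).card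

/-- The elements of `S` that are not regular points of `S`. -/
def Irregular (S : Set ℕ) (L κ δ : ℝ) (M Y : ℕ) : Set ℕ :=
  {m | m ∈ S ∧ ¬ (RightOrder S L κ Y m ∧ badScales S L κ δ Y m ≤ M)}

open Classical in
/-- **Regular points, uniformly.** Let `s ≥ 1`, `A` and `θ > 0`. There is `r0` such that for `r ≥ r0` and `ε > 0`
there is `κ > 0`, and for `δ > 0` there is `M`, such that for all large `X`, with `y = X ^ (1 / r)`, ALL
admissible sets `T` of `s` positive integers up to `X ^ A`, all intervals `(u, u + Y]` with `X ^ θ ≤ Y ≤ X`,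
`Y ≤ u`, and EVERY set `S` of integers `n` for which neither `n` nor any `a n + 1` has a prime factor `≤ y`, for
instance the set of all `n > y` for which `n` and the `a n + 1` are primes: all but at most `ε Y V` of the
elements of `S` in `(u, u + Y]` are regular points of `S`: all intervals around them of length at least
`1 / (κ V)` and at most `Y` to each side contain the right order of elements of `S`, and `S` has a constant
density up to `δ` around them at all but `M` dyadic scales. -/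
theorem result (s A : ℕ) (hs : 1 ≤ s) (θ : ℝ) (hθ : 0 < θ) :
    ∃ r0 : ℕ, 2 ≤ r0 ∧ ∀ r : ℕ, r0 ≤ r → ∀ ε : ℝ, 0 < ε → ∃ κ : ℝ, 0 < κ ∧
      ∀ δ : ℝ, 0 < δ → ∃ M : ℕ, ∀ᶠ X : ℕ in atTop, ∀ y : ℕ, y = ⌊(X : ℝ) ^ (1 / (r : ℝ))⌋₊ →
      ∀ T : Finset ℕ, T.card = s → (∀ a ∈ T, 1 ≤ a ∧ a ≤ X ^ A) → Admissible T →
      ∀ u Y : ℕ, (X : ℝ) ^ θ ≤ Y → Y ≤ X → Y ≤ u → ∀ S : Set ℕ, (∀ n ∈ S, Rough T y n) →
        (count (Irregular S (1 / V T y) κ δ M Y) u (u + Y) : ℝ) ≤ ε * (Y * V T y) :=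
  Pool.Agent.R490.Bc.breg s A hs θ hθ

end Pool.Agent.Results.MP_bca3e5_nt.RegularPoints
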