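import Pool.Agent.R490.Bc

set_option autoImplicit false

/-!
# Rough `n` with rough `a n + 1`: the law of the spacings, uniformly in the `a`
-/

namespace Pool.Agent.Results.MP_bca3e5_nt.SpacingLaw

open Finset Filter

/-- The set `T` of positive integers is admissible in the sense of the problem. -/
def Admissible (T : Finset ℕ) : Prop := ∀ p : ℕ, p.Prime → ¬ ∀ n : ℕ, 1 ≤ n → p ∣ n * ∏ a ∈ T, (a * n + 1)

/-- Neither `n` nor any `a n + 1`, `a ∈ T`, has a prime factor `≤ y`. -/
def Rough (T : Finset ℕ) (y n : ℕ) : Prop := ∀ p : ℕ, p.Prime → p ≤ y → ¬ p ∣ n ∧ ∀ a ∈ T, ¬ p ∣ a * n + 1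

/-- The number of the residue classes `n` modulo `p` with `p ∣ n ∏ (a n + 1)`. -/
def w (T : Finset ℕ) (p : ℕ) : ℕ := ((Finset.range p).filter (fun n => p ∣ n * ∏ a ∈ T, (a * n + 1))).card

/-- The density of the `n` with `Rough T y n`. -/
noncomputable def V (T : Finset ℕ) (y : ℕ) : ℝ :=
  ∏ p ∈ (Finset.range (y + 1)).filter Nat.Prime, (1 - (w T p : ℝ) / p)

open Classical in
/-- The number of the `n` in `(u, u + Y]` with `Rough T y n` for which fewer than `k` of the `B` integers
before `n` have this property, that is, for which the distance from `n` to the `k`-th preceding such integer is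
larger than `B`. -/
noncomputable def D (T : Finset ℕ) (y k B u Y : ℕ) : ℕ :=
  ((Ioc u (u + Y)).filter (fun n => Rough T y n ∧ ((Ico (n - B) n).filter (fun m => Rough T y m)).card < k)).card

open Classical in
/-- **The law of the spacings, uniformly.** Let `s ≥ 1`, `A` and `θ > 0`. For all `k0`, `x0` and `ε > 0` there is
`r0` such that for every `r ≥ r0`, all large `X`, with `y = X ^ (1 / r)`: for ALL admissible sets `T` of `s`
positive integers up to `X ^ A` and ALL intervals `(u, u + Y]` with `Y ≥ X ^ θ`, among the `n` for which neither `n`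
nor any `a n + 1` has a prime factor `≤ y`, the distances to the `k`-th preceding one have, in units `1 / V` and
up to `ε`, the distribution which belongs to a Poisson process. -/
theorem result (s A : ℕ) (hs : 1 ≤ s) (θ : ℝ) (hθ : 0 < θ) (k0 : ℕ) (x0 ε : ℝ) (hε : 0 < ε) :
    ∃ r0 : ℕ, ∀ r : ℕ, r0 ≤ r → ∀ᶠ X : ℕ in atTop, ∀ y : ℕ, y = ⌊(X : ℝ) ^ (1 / (r : ℝ))⌋₊ →
      ∀ T : Finset ℕ, T.card = s → (∀ a ∈ T, 1 ≤ a ∧ a ≤ X ^ A) → Admissible T →
      ∀ u Y : ℕ, (X : ℝ) ^ θ ≤ Y → ∀ k B : ℕ, (k ≤ k0 ∨ B * V T y ≤ x0) →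
        |(D T y k B u Y : ℝ) - Y * V T y *
            ∑ j ∈ range k, Real.exp (-(B * V T y)) * (B * V T y) ^ j / j.factorial| ≤
          ε * (Y * V T y) :=
  Pool.Agent.R490.Bc.bgap s A hs θ hθ k0 x0 ε hε

end Pool.Agent.Results.MP_bca3e5_nt.SpacingLaw
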